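import Mathlib
import Pool.Agent.Q277.WSquares

/-!
# Weighted sums of squares of `R_k` and `W_k` modulo `16 n` and `8 n`

For `R_n = ∑_k C(n+k,2k) C(2k,k)/(2k-1)` and `W_n = ∑_k C(n+k,2k) C(2k,k) 3/(2k-3)` (both are
integers) we prove, for every positive `n`, that `∑_{k<n} (2k+1) R_k^2 ≡ n^2 (mod 16 n)` and
`∑_{k<n} (2k+1) W_k^2 ≡ n^2 (mod 8 n)`.
-/

open Finset

namespace Pool.Agent.Results.MP_c292ad_nt.RAndW

/-- `R_n = ∑_{k=0}^n C(n+k,2k) C(2k,k) / (2k-1)`. -/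
def R (n : ℕ) : ℚ :=
  ∑ k ∈ range (n + 1), ((n + k).choose (2 * k) : ℚ) * ((2 * k).choose k : ℚ) *
    (1 / (2 * (k : ℚ) - 1))

/-- `W_n = ∑_{k=0}^n C(n+k,2k) C(2k,k) 3 / (2k-3)`. -/
def W (n : ℕ) : ℚ :=
  ∑ k ∈ range (n + 1), ((n + k).choose (2 * k) : ℚ) * ((2 * k).choose k : ℚ) *
    (3 / (2 * (k : ℚ) - 3))

/-- `R_n` and `W_n` are integers `r n`, `w n`, and for every positive `n` both congruences hold. -/
theorem result : ∃ r w : ℕ → ℤ, (∀ n, R n = r n) ∧ (∀ n, W n = w n) ∧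
    ∀ n : ℕ, 1 ≤ n →
      (∑ k ∈ range n, (2 * (k : ℤ) + 1) * r k ^ 2) ≡ (n : ℤ) ^ 2 [ZMOD 16 * n] ∧
      (∑ k ∈ range n, (2 * (k : ℤ) + 1) * w k ^ 2) ≡ (n : ℤ) ^ 2 [ZMOD 8 * n] := by
  have hR : ∀ k, R k = Q277.SqExp.R (Q277.RSquares.al 0) k := by
    intro k
    unfold R Q277.SqExp.R Q277.RSquares.al
    refine Finset.sum_congr rfl fun i _ => ?_
    rw [Q277.SqExp.E_eq]
    push_cast
    rw [show (2 * (i : ℚ) - 1) = (2 * (i : ℚ) - (2 * 0 + 1)) by ring]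
  have hW : ∀ k, W k = 3 * Q277.SqExp.R (Q277.RSquares.al 1) k := by
    intro k
    unfold W Q277.SqExp.R Q277.RSquares.al
    rw [Finset.mul_sum]
    refine Finset.sum_congr rfl fun i _ => ?_
    rw [Q277.SqExp.E_eq]
    push_cast
    rw [show (2 * (i : ℚ) - 3) = (2 * (i : ℚ) - (2 * 1 + 1)) by ring]
    ring
  choose r hr using fun n => Q277.RSquares.R_int 0 n
  choose w hw using fun n => Q277.RSquares.R_int 1 n
  have hr' : ∀ n, R n = r n := by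
    intro n
    rw [← hr, hR, Q277.RSquares.D_zero]; simp
  have hw' : ∀ n, W n = w n := by
    intro n
    rw [← hw, hW, Q277.RSquares.D_one]; simp
  refine ⟨r, w, hr', hw', fun n _ => ⟨?_, ?_⟩⟩
  · obtain ⟨z, hz⟩ := Q277.RSquares.R0_sum n
    have h : (∑ k ∈ range n, (2 * (k : ℤ) + 1) * r k ^ 2) = (n : ℤ) ^ 2 + 16 * n * z := by
      have : ((∑ k ∈ range n, (2 * (k : ℤ) + 1) * r k ^ 2 : ℤ) : ℚ) =
          (((n : ℤ) ^ 2 + 16 * n * z : ℤ) : ℚ) := by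
        push_cast
        rw [← hz]
        exact Finset.sum_congr rfl fun k _ => by rw [← hR, hr']
      exact_mod_cast this
    rw [h]
    apply Int.ModEq.symm
    rw [Int.modEq_iff_dvd]
    exact ⟨z, by ring⟩
  · obtain ⟨z, hz⟩ := Q277.RSquares.W_sum n
    have h : (∑ k ∈ range n, (2 * (k : ℤ) + 1) * w k ^ 2) = (n : ℤ) ^ 2 + 8 * n * z := by
      have : ((∑ k ∈ range n, (2 * (k : ℤ) + 1) * w k ^ 2 : ℤ) : ℚ) =
          (((n : ℤ) ^ 2 + 8 * n * z : ℤ) : ℚ) := by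
        push_cast
        rw [← hz]
        exact Finset.sum_congr rfl fun k _ => by rw [← hW, hw']
      exact_mod_cast this
    rw [h]
    apply Int.ModEq.symm
    rw [Int.modEq_iff_dvd]
    exact ⟨z, by ring⟩

end Pool.Agent.Results.MP_c292ad_nt.RAndW
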